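import Pool.Agent.W8.ST.Stm

set_option autoImplicit false

open scoped ContDiff
open MeasureTheory intervalIntegral Set

namespace Pool.Agent.W819.ST

noncomputable section

/-- The terms of the Volterra series. -/
def W (a : ℝ → ℝ → ℝ) : ℕ → ℝ → ℝ → ℝ
  | 0 => fun _ _ => 1
  | n + 1 => fun l t => ∫ s in (-1 : ℝ)..t, ∫ r in (-1 : ℝ)..s, a l r * W a n l r

def U (a : ℝ → ℝ → ℝ) (n : ℕ) (l t : ℝ) : ℝ := ∫ r in (-1 : ℝ)..t, a l r * W a n l r

theorem W_succ (a : ℝ → ℝ → ℝ) (n : ℕ) (l t : ℝ) :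
    W a (n + 1) l t = ∫ s in (-1 : ℝ)..t, U a n l s := rfl

theorem cont_int (f : ℝ → ℝ → ℝ) (hf : Continuous (Function.uncurry f)) :
    Continuous (Function.uncurry (fun l t => ∫ s in (-1 : ℝ)..t, f l s)) := by
  have h := intervalIntegral.continuous_parametric_intervalIntegral_of_continuous
    (μ := volume) (a₀ := (-1 : ℝ)) (X := ℝ × ℝ) (f := fun (p : ℝ × ℝ) s => f p.1 s)
    (hf.comp ((continuous_fst.comp continuous_fst).prodMk continuous_snd))
    (s := fun p => p.2) continuous_snd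
  exact h

theorem W_cont (a : ℝ → ℝ → ℝ) (ha : Continuous (Function.uncurry a)) (n : ℕ) :
    Continuous (Function.uncurry (W a n)) := by
  induction n with
  | zero => exact continuous_const
  | succ n ih =>
    have h1 : Continuous (Function.uncurry (fun l r => a l r * W a n l r)) := ha.mul ih
    exact cont_int _ (cont_int _ h1)

theorem U_cont (a : ℝ → ℝ → ℝ) (ha : Continuous (Function.uncurry a)) (n : ℕ) :
    Continuous (Function.uncurry (U a n)) := by
  have h1 : Continuous (Function.uncurry (fun l r => a l r * W a n l r)) :=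
    ha.mul (W_cont a ha n)
  exact cont_int _ h1

theorem W_deriv (a : ℝ → ℝ → ℝ) (ha : Continuous (Function.uncurry a)) (n : ℕ) (l t : ℝ) :
    HasDerivAt (W a (n + 1) l) (U a n l t) t := by
  have h1 : Continuous (U a n l) := (U_cont a ha n).uncurry_left l
  exact (h1.integral_hasStrictDerivAt (-1) t).hasDerivAt

theorem U_deriv (a : ℝ → ℝ → ℝ) (ha : Continuous (Function.uncurry a)) (n : ℕ) (l t : ℝ) :
    HasDerivAt (U a n l) (a l t * W a n l t) t := by
  have h1 : Continuous (fun r => a l r * W a n l r) :=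
    (ha.uncurry_left l).mul ((W_cont a ha n).uncurry_left l)
  exact (h1.integral_hasStrictDerivAt (-1) t).hasDerivAt

theorem abs_int_pow (n : ℕ) (t : ℝ) :
    |∫ s in (-1 : ℝ)..t, |s + 1| ^ n| = |t + 1| ^ (n + 1) / (n + 1) := by
  have hn : (0 : ℝ) < (n : ℝ) + 1 := by positivity
  rcases le_total (-1) t with ht | ht
  · have h1 : ∫ s in (-1 : ℝ)..t, |s + 1| ^ n = ∫ s in (-1 : ℝ)..t, (s + 1) ^ n := by
      apply integral_congr
      intro s hs
      rw [uIcc_of_le ht] at hs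
      have : 0 ≤ s + 1 := by linarith [hs.1]
      simp only [abs_of_nonneg this]
    rw [h1, integral_comp_add_right (fun x : ℝ => x ^ n) 1, integral_pow]
    have h2 : 0 ≤ t + 1 := by linarith
    rw [abs_of_nonneg h2]
    norm_num
    exact div_nonneg (pow_nonneg h2 _) hn.le
  · have h1 : ∫ s in (-1 : ℝ)..t, |s + 1| ^ n = ∫ s in (-1 : ℝ)..t, (-1 - s) ^ n := by
      apply integral_congr
      intro s hs
      rw [uIcc_of_ge ht] at hs
      have : s + 1 ≤ 0 := by linarith [hs.2]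
      simp only [abs_of_nonpos this]
      congr 1
      ring
    rw [h1, integral_comp_sub_left (fun x : ℝ => x ^ n) (-1), integral_pow]
    have h2 : t + 1 ≤ 0 := by linarith
    have h3 : 0 ≤ -1 - t := by linarith
    rw [abs_of_nonpos h2]
    have h4 : -(t + 1) = -1 - t := by ring
    rw [h4]
    norm_num
    rw [abs_div, abs_neg, abs_of_nonneg (pow_nonneg h3 _), abs_of_nonneg hn.le]

theorem mem_abs {r t : ℝ} (h : r ∈ uIoc (-1 : ℝ) t) : |r + 1| ≤ |t + 1| := by
  rcases le_total (-1) t with ht | ht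
  · rw [uIoc_of_le ht] at h
    rw [abs_of_nonneg (by linarith [h.1]), abs_of_nonneg (by linarith)]
    linarith [h.2]
  · rw [uIoc_of_ge ht] at h
    rw [abs_of_nonpos (by linarith [h.2]), abs_of_nonpos (by linarith)]
    linarith [h.1]

theorem int_bound (f : ℝ → ℝ) (K t : ℝ) (hK : 0 ≤ K) (n : ℕ)
    (h : ∀ r ∈ uIoc (-1 : ℝ) t, |f r| ≤ K * |r + 1| ^ n) :
    |∫ r in (-1 : ℝ)..t, f r| ≤ K * (|t + 1| ^ (n + 1) / (n + 1)) := by
  have hc : Continuous (fun r : ℝ => K * |r + 1| ^ n) := by fun_prop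
  have h1 := intervalIntegral.norm_integral_le_abs_of_norm_le (μ := volume) (f := f)
    (g := fun r => K * |r + 1| ^ n) (a := -1) (b := t)
    (by
      rw [ae_restrict_iff' measurableSet_uIoc]
      exact Filter.Eventually.of_forall (fun r hr => h r hr))
    (hc.intervalIntegrable _ _)
  rw [intervalIntegral.integral_const_mul, abs_mul, abs_of_nonneg hK, abs_int_pow] at h1
  exact h1

theorem U_bd0 (a : ℝ → ℝ → ℝ) (C T l : ℝ) (hC0 : 0 ≤ C) (hT0 : 0 ≤ T)
    (hC : ∀ t, |t + 1| ≤ T → |a l t| ≤ C) (n : ℕ)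
    (hW : ∀ t, |t + 1| ≤ T → |W a n l t| ≤ (C * T) ^ n / n.factorial * |t + 1| ^ n)
    (t : ℝ) (ht : |t + 1| ≤ T) :
    |U a n l t| ≤ C * ((C * T) ^ n / n.factorial) * (|t + 1| ^ (n + 1) / (n + 1)) := by
  apply int_bound _ _ _ (by positivity)
  intro r hr
  have hr' := (mem_abs hr).trans ht
  rw [abs_mul, mul_assoc]
  exact mul_le_mul (hC r hr') (hW r hr') (abs_nonneg _) hC0

theorem W_bd (a : ℝ → ℝ → ℝ) (C T l : ℝ) (hC0 : 0 ≤ C) (hT0 : 0 ≤ T)
    (hC : ∀ t, |t + 1| ≤ T → |a l t| ≤ C) (n : ℕ) :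
    ∀ t, |t + 1| ≤ T → |W a n l t| ≤ (C * T) ^ n / n.factorial * |t + 1| ^ n := by
  induction n with
  | zero => intro t _; simp [W]
  | succ n ih =>
    intro t ht
    rw [W_succ]
    have hn : (0 : ℝ) < (n : ℝ) + 1 := by positivity
    have hfac : ((n + 1).factorial : ℝ) = ((n : ℝ) + 1) * n.factorial := by
      rw [Nat.factorial_succ]; push_cast; ring
    have hfpos : (0 : ℝ) < n.factorial := by exact_mod_cast n.factorial_pos
    have h1 : |∫ s in (-1 : ℝ)..t, U a n l s| ≤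
        ((C * T) ^ (n + 1) / (n + 1).factorial) * (|t + 1| ^ (n + 1) / (n + 1)) := by
      apply int_bound _ _ _ (by positivity)
      intro s hs
      have hs' := (mem_abs hs).trans ht
      refine (U_bd0 a C T l hC0 hT0 hC n ih s hs').trans ?_
      rw [hfac, pow_succ (C * T), pow_succ (|s + 1|)]
      have e1 : C * ((C * T) ^ n / n.factorial) * (|s + 1| ^ n * |s + 1| / (n + 1)) =
          (C * (C * T) ^ n * |s + 1| ^ n / (n.factorial * ((n : ℝ) + 1))) * |s + 1| := by
        field_simp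
      have e2 : (C * T) ^ n * (C * T) / (((n : ℝ) + 1) * n.factorial) * |s + 1| ^ n =
          (C * (C * T) ^ n * |s + 1| ^ n / (n.factorial * ((n : ℝ) + 1))) * T := by
        field_simp
      rw [e1, e2]
      exact mul_le_mul_of_nonneg_left hs' (by positivity)
    refine h1.trans ?_
    apply mul_le_mul_of_nonneg_left _ (by positivity)
    apply div_le_self (by positivity)
    linarith [(Nat.cast_nonneg n : (0 : ℝ) ≤ n)]

theorem W_bd' (a : ℝ → ℝ → ℝ) (C T l : ℝ) (hC0 : 0 ≤ C) (hT0 : 0 ≤ T)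
    (hC : ∀ t, |t + 1| ≤ T → |a l t| ≤ C) (n : ℕ) (t : ℝ) (ht : |t + 1| ≤ T) :
    |W a n l t| ≤ (C * T * T) ^ n / n.factorial := by
  refine (W_bd a C T l hC0 hT0 hC n t ht).trans ?_
  rw [mul_pow (C * T) T n, div_mul_eq_mul_div]
  have hfpos : (0 : ℝ) < n.factorial := by exact_mod_cast n.factorial_pos
  gcongr

theorem U_bd' (a : ℝ → ℝ → ℝ) (C T l : ℝ) (hC0 : 0 ≤ C) (hT0 : 0 ≤ T)
    (hC : ∀ t, |t + 1| ≤ T → |a l t| ≤ C) (n : ℕ) (t : ℝ) (ht : |t + 1| ≤ T) :
    |U a n l t| ≤ C * T * ((C * T * T) ^ n / n.factorial) := by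
  refine (U_bd0 a C T l hC0 hT0 hC n (W_bd a C T l hC0 hT0 hC n) t ht).trans ?_
  have hfpos : (0 : ℝ) < n.factorial := by exact_mod_cast n.factorial_pos
  have hn : (1 : ℝ) ≤ (n : ℝ) + 1 := by linarith [(Nat.cast_nonneg n : (0 : ℝ) ≤ n)]
  have h1 : |t + 1| ^ (n + 1) / ((n : ℝ) + 1) ≤ T ^ (n + 1) := by
    refine (div_le_self (by positivity) hn).trans ?_
    gcongr
  have h2 : C * T * ((C * T * T) ^ n / n.factorial) =
      C * ((C * T) ^ n / n.factorial) * T ^ (n + 1) := by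
    rw [mul_pow (C * T) T n, pow_succ]; ring
  rw [h2]
  exact mul_le_mul_of_nonneg_left h1 (by positivity)

theorem exists_bd (a : ℝ → ℝ → ℝ) (ha : Continuous (Function.uncurry a)) (R T : ℝ) :
    ∃ C : ℝ, 0 ≤ C ∧ ∀ l, |l| ≤ R → ∀ t, |t + 1| ≤ T → |a l t| ≤ C := by
  have hK : IsCompact (Icc (-R) R ×ˢ Icc (-1 - T) (-1 + T)) := isCompact_Icc.prod isCompact_Icc
  obtain ⟨C, hC⟩ := hK.exists_bound_of_continuousOn ha.continuousOn
  refine ⟨max C 0, le_max_right _ _, fun l hl t ht => ?_⟩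
  have h1 := abs_le.1 hl
  have h2 := abs_le.1 ht
  have := hC (l, t) ⟨⟨h1.1, h1.2⟩, ⟨by linarith [h2.1], by linarith [h2.2]⟩⟩
  exact (this.trans (le_max_left _ _))

def w (a : ℝ → ℝ → ℝ) (l t : ℝ) : ℝ := 1 + ∑' n : ℕ, W a (n + 1) l t

def v (a : ℝ → ℝ → ℝ) (l t : ℝ) : ℝ := ∑' n : ℕ, U a n l t

theorem summ (x K : ℝ) : Summable (fun n : ℕ => K * (x ^ n / n.factorial)) :=
  (Real.summable_pow_div_factorial x).mul_left K

theorem summ_succ (x : ℝ) : Summable (fun n : ℕ => (x ^ (n + 1) / (n + 1).factorial)) :=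
  (summable_nat_add_iff 1).2 (Real.summable_pow_div_factorial x)

theorem W_summable (a : ℝ → ℝ → ℝ) (ha : Continuous (Function.uncurry a)) (l t : ℝ) :
    Summable (fun n => W a n l t) := by
  obtain ⟨C, hC0, hC⟩ := exists_bd a ha |l| |t + 1|
  exact Summable.of_norm_bounded (Real.summable_pow_div_factorial (C * |t + 1| * |t + 1|))
    (fun n => W_bd' a C |t + 1| l hC0 (abs_nonneg _) (hC l le_rfl) n t le_rfl)

theorem U_summable (a : ℝ → ℝ → ℝ) (ha : Continuous (Function.uncurry a)) (l t : ℝ) :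
    Summable (fun n => U a n l t) := by
  obtain ⟨C, hC0, hC⟩ := exists_bd a ha |l| |t + 1|
  exact Summable.of_norm_bounded (summ (C * |t + 1| * |t + 1|) (C * |t + 1|))
    (fun n => U_bd' a C |t + 1| l hC0 (abs_nonneg _) (hC l le_rfl) n t le_rfl)

theorem w_eq (a : ℝ → ℝ → ℝ) (ha : Continuous (Function.uncurry a)) (l t : ℝ) :
    w a l t = ∑' n, W a n l t := by
  rw [(W_summable a ha l t).tsum_eq_zero_add]
  rfl

theorem w_deriv (a : ℝ → ℝ → ℝ) (ha : Continuous (Function.uncurry a)) (l t : ℝ) :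
    HasDerivAt (w a l) (v a l t) t := by
  obtain ⟨C, hC0, hC⟩ := exists_bd a ha |l| (|t + 1| + 1)
  have hT0 : 0 ≤ |t + 1| + 1 := by positivity
  set T := |t + 1| + 1 with hT
  have ht : t ∈ Ioo (-1 - T) (-1 + T) := by
    have := neg_abs_le (t + 1)
    have := le_abs_self (t + 1)
    constructor <;> linarith
  have hbd : ∀ y ∈ Ioo (-1 - T) (-1 + T), |y + 1| ≤ T := by
    intro y hy
    rw [abs_le]
    constructor <;> linarith [hy.1, hy.2]
  have h := hasDerivAt_tsum_of_isPreconnected (𝕜 := ℝ) (g := fun n => W a (n + 1) l)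
    (g' := fun n => U a n l) (summ (C * T * T) (C * T)) isOpen_Ioo isPreconnected_Ioo
    (fun n y _ => W_deriv a ha n l y)
    (fun n y hy => U_bd' a C T l hC0 hT0 (hC l le_rfl) n y (hbd y hy)) ht
    ((summable_nat_add_iff 1).2 (W_summable a ha l t)) ht
  exact h.const_add 1

theorem v_deriv (a : ℝ → ℝ → ℝ) (ha : Continuous (Function.uncurry a)) (l t : ℝ) :
    HasDerivAt (v a l) (a l t * w a l t) t := by
  obtain ⟨C, hC0, hC⟩ := exists_bd a ha |l| (|t + 1| + 1)
  have hT0 : 0 ≤ |t + 1| + 1 := by positivity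
  set T := |t + 1| + 1 with hT
  have ht : t ∈ Ioo (-1 - T) (-1 + T) := by
    have := neg_abs_le (t + 1)
    have := le_abs_self (t + 1)
    constructor <;> linarith
  have hbd : ∀ y ∈ Ioo (-1 - T) (-1 + T), |y + 1| ≤ T := by
    intro y hy
    rw [abs_le]
    constructor <;> linarith [hy.1, hy.2]
  have h := hasDerivAt_tsum_of_isPreconnected (𝕜 := ℝ) (g := fun n => U a n l)
    (g' := fun n y => a l y * W a n l y) (summ (C * T * T) C) isOpen_Ioo isPreconnected_Ioo
    (fun n y _ => U_deriv a ha n l y)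
    (fun n y hy => by
      rw [norm_mul]
      exact mul_le_mul (hC l le_rfl y (hbd y hy))
        (W_bd' a C T l hC0 hT0 (hC l le_rfl) n y (hbd y hy)) (norm_nonneg _) hC0) ht
    (U_summable a ha l t) ht
  rw [w_eq a ha, ← tsum_mul_left]
  exact h

theorem w_jcont (a : ℝ → ℝ → ℝ) (ha : Continuous (Function.uncurry a)) :
    Continuous (fun p : ℝ × ℝ => w a p.1 p.2) := by
  rw [continuous_iff_continuousAt]
  rintro ⟨l, t⟩
  obtain ⟨C, hC0, hC⟩ := exists_bd a ha (|l| + 1) (|t + 1| + 1)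
  have hT0 : 0 ≤ |t + 1| + 1 := by positivity
  set T := |t + 1| + 1 with hT
  set B : Set (ℝ × ℝ) := {p | |p.1| < |l| + 1 ∧ |p.2 + 1| < T} with hB
  have hBo : IsOpen B := by
    apply IsOpen.inter
    · exact isOpen_lt continuous_fst.abs continuous_const
    · exact isOpen_lt (continuous_snd.add continuous_const).abs continuous_const
  have hmem : (l, t) ∈ B := ⟨by simp, by simp [hT]⟩
  have hc : ContinuousOn (fun p : ℝ × ℝ => ∑' n : ℕ, W a (n + 1) p.1 p.2) B := by
    apply continuousOn_tsum (fun n => (W_cont a ha (n + 1)).continuousOn)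
      (summ_succ (C * T * T))
    rintro n ⟨l', t'⟩ hp
    exact W_bd' a C T l' hC0 hT0 (hC l' hp.1.le) (n + 1) t' hp.2.le
  exact continuousAt_const.add (hc.continuousAt (hBo.mem_nhds hmem))

theorem v_jcont (a : ℝ → ℝ → ℝ) (ha : Continuous (Function.uncurry a)) :
    Continuous (fun p : ℝ × ℝ => v a p.1 p.2) := by
  rw [continuous_iff_continuousAt]
  rintro ⟨l, t⟩
  obtain ⟨C, hC0, hC⟩ := exists_bd a ha (|l| + 1) (|t + 1| + 1)
  have hT0 : 0 ≤ |t + 1| + 1 := by positivity
  set T := |t + 1| + 1 with hT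
  set B : Set (ℝ × ℝ) := {p | |p.1| < |l| + 1 ∧ |p.2 + 1| < T} with hB
  have hBo : IsOpen B := by
    apply IsOpen.inter
    · exact isOpen_lt continuous_fst.abs continuous_const
    · exact isOpen_lt (continuous_snd.add continuous_const).abs continuous_const
  have hmem : (l, t) ∈ B := ⟨by simp, by simp [hT]⟩
  have hc : ContinuousOn (fun p : ℝ × ℝ => ∑' n : ℕ, U a n p.1 p.2) B := by
    apply continuousOn_tsum (fun n => (U_cont a ha n).continuousOn)
      (summ (C * T * T) (C * T))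
    rintro n ⟨l', t'⟩ hp
    exact U_bd' a C T l' hC0 hT0 (hC l' hp.1.le) n t' hp.2.le
  exact hc.continuousAt (hBo.mem_nhds hmem)

theorem w_dw (a : ℝ → ℝ → ℝ) (ha : Continuous (Function.uncurry a)) (l : ℝ) :
    deriv (w a l) = v a l := funext fun t => (w_deriv a ha l t).deriv

theorem v_dv (a : ℝ → ℝ → ℝ) (ha : Continuous (Function.uncurry a)) (l : ℝ) :
    deriv (v a l) = fun t => a l t * w a l t := funext fun t => (v_deriv a ha l t).deriv

theorem wv_smooth (a : ℝ → ℝ → ℝ) (ha : Continuous (Function.uncurry a)) (l : ℝ)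
    (hs : ContDiff ℝ ∞ (a l)) (n : ℕ) : ContDiff ℝ n (w a l) ∧ ContDiff ℝ n (v a l) := by
  induction n with
  | zero =>
    constructor
    · exact contDiff_zero.2
        (continuous_iff_continuousAt.2 fun t => (w_deriv a ha l t).continuousAt)
    · exact contDiff_zero.2
        (continuous_iff_continuousAt.2 fun t => (v_deriv a ha l t).continuousAt)
  | succ n ih =>
    constructor
    · push_cast
      rw [contDiff_succ_iff_deriv]
      refine ⟨fun t => (w_deriv a ha l t).differentiableAt, by simp, ?_⟩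
      rw [w_dw a ha l]
      exact ih.2
    · push_cast
      rw [contDiff_succ_iff_deriv]
      refine ⟨fun t => (v_deriv a ha l t).differentiableAt, by simp, ?_⟩
      rw [v_dv a ha l]
      exact (hs.of_le (by exact_mod_cast le_top)).mul ih.1

theorem linear (a : ℝ → ℝ → ℝ) (ha : Continuous (Function.uncurry a))
    (hs : ∀ l, ContDiff ℝ ∞ (a l)) :
    ∃ w : ℝ → ℝ → ℝ, (∀ l, ContDiff ℝ ∞ (w l)) ∧ (∀ l, w l (-1) = 1) ∧
    (∀ l, deriv (w l) (-1) = 0) ∧
    (∀ l t, deriv (deriv (w l)) t = a l t * w l t) ∧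
    Continuous (fun p : ℝ × ℝ => w p.1 p.2) ∧
    Continuous (fun p : ℝ × ℝ => deriv (w p.1) p.2) := by
  refine ⟨w a, fun l => contDiff_infty.2 fun n => (wv_smooth a ha l (hs l) n).1, fun l => ?_,
    fun l => ?_, fun l t => ?_, w_jcont a ha, ?_⟩
  · unfold w
    have : ∀ n : ℕ, W a (n + 1) l (-1) = 0 := fun n => by rw [W_succ, integral_same]
    simp [this]
  · rw [w_dw a ha l]
    unfold v
    have : ∀ n : ℕ, U a n l (-1) = 0 := fun n => by unfold U; rw [integral_same]
    simp [this]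
  · rw [w_dw a ha l, v_dv a ha l]
  · have : (fun p : ℝ × ℝ => deriv (w a p.1) p.2) = fun p : ℝ × ℝ => v a p.1 p.2 := by
      funext p
      rw [w_dw a ha p.1]
    rw [this]
    exact v_jcont a ha

open Pool.Agent.W8.ST in
theorem Ode_proof : Ode := by
  have hq : ContDiff ℝ ∞ q := by
    unfold Pool.Agent.W8.ST.q
    fun_prop
  have hq0 : ∀ t, q t ≠ 0 := fun t => (Real.exp_pos _).ne'
  have hqi : ContDiff ℝ ∞ (fun t => (q t)⁻¹) := hq.inv hq0
  apply linear (fun l t => ((q t)⁻¹) ^ 2 - l * q t)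
  · have h1 : Continuous (fun p : ℝ × ℝ => ((q p.2)⁻¹) ^ 2 - p.1 * q p.2) :=
      ((hqi.continuous.comp continuous_snd).pow 2).sub
        (continuous_fst.mul (hq.continuous.comp continuous_snd))
    exact h1
  · intro l
    exact (hqi.pow 2).sub (contDiff_const.mul hq)

end

end Pool.Agent.W819.ST
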